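import Pool.Agent.Mg.F560646.G3279a2

namespace Pool.Agent.Results.MP_560646_mp.AlphaInt

open Pool.Agent.MP_560646_mp
open scoped ComplexOrder

theorem result {n m : Type} [Fintype n] [DecidableEq n] [Fintype m] [DecidableEq m]
    (α : ℝ) (hα : α = 3 ∨ α = 4 ∨ α = 5)
    (σ : ZMod 2 → Matrix n n ℂ) (η : ZMod 2 → Matrix m m ℂ)
    (hσ : ∀ x, (σ x).PosSemidef ∧ Matrix.trace (σ x) = 1)
    (hη : ∀ x, (η x).PosSemidef ∧ Matrix.trace (η x) = 1) :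
    Hdown α (cq σ) ∈ Set.Icc 0 (Real.log 2) ∧ Hdown α (cq η) ∈ Set.Icc 0 (Real.log 2) ∧
    bound α (Hdown α (cq σ)) (Hdown α (cq η)) ≤ Hdown α (combine σ η) ∧
    (α ≤ 3 → Hdown α (combine σ η) ≤ bound α (Hdown α (cq σ)) (Hdown α (cq η))) := by
  rcases hα with rfl | rfl | rfl
  · obtain ⟨a, b, c, -⟩ := alpha_three σ η hσ hη
    exact ⟨a, b, c.ge, fun _ => c.le⟩
  · obtain ⟨a, b, c⟩ := alpha_four σ η hσ hη
    exact ⟨a, b, c, fun h => absurd h (by norm_num)⟩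
  · obtain ⟨a, b, c⟩ := alpha_five σ η hσ hη
    exact ⟨a, b, c, fun h => absurd h (by norm_num)⟩

end Pool.Agent.Results.MP_560646_mp.AlphaInt
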