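import Pool.Agent.Mg.F560646.Gb40ce4

namespace Pool.Agent.Results.MP_560646_mp.LargeAlpha

open Pool.Agent.MP_560646_mp
open scoped ComplexOrder

theorem result {n m : Type} [Fintype n] [DecidableEq n] [Fintype m] [DecidableEq m]
    (α : ℝ) (hα : 1 < α)
    (σ : ZMod 2 → Matrix n n ℂ) (η : ZMod 2 → Matrix m m ℂ)
    (hσ : ∀ x, (σ x).PosSemidef ∧ Matrix.trace (σ x) = 1)
    (hη : ∀ x, (η x).PosSemidef ∧ Matrix.trace (η x) = 1) :
    Hdown α (cq σ) ∈ Set.Icc 0 (Real.log 2) ∧ Hdown α (cq η) ∈ Set.Icc 0 (Real.log 2) ∧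
    bound α (Hdown α (cq σ)) (Hdown α (cq η)) - Real.log 9 / (α - 1) ≤
      Hdown α (combine σ η) :=
  large_alpha hα σ η hσ hη

end Pool.Agent.Results.MP_560646_mp.LargeAlpha
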