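import Pool.Agent.MP_560646_mp.Hz.Sw

namespace Pool.Agent.Results.MP_560646_mp.OneSidedAll

open Pool.Agent.MP_560646_mp
open scoped ComplexOrder

theorem result {n m : Type} [Fintype n] [DecidableEq n] [Fintype m] [DecidableEq m]
    (α : ℝ) (h₀ : 0 < α)
    (σ : ZMod 2 → Matrix n n ℂ) (η : ZMod 2 → Matrix m m ℂ)
    (hσ : ∀ x, (σ x).PosSemidef ∧ Matrix.trace (σ x) = 1)
    (hη : ∀ x, (η x).PosSemidef ∧ Matrix.trace (η x) = 1)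
    (h : (Commute (σ 0) (σ 1) ∨ ∃ c : ℝ, ∀ x, σ x * σ x = c • σ x) ∨
      (Commute (η 0) (η 1) ∨ ∃ c : ℝ, ∀ x, η x * η x = c • η x)) :
    Hall α (cq σ) ∈ Set.Icc 0 (Real.log 2) ∧ Hall α (cq η) ∈ Set.Icc 0 (Real.log 2) ∧
    (α ≤ 2 ∨ 3 ≤ α →
      Fall α (Hall α (cq σ)) (Hall α (cq η)) ≤ Hall α (combine σ η)) ∧
    (2 ≤ α → α ≤ 3 →
      Hall α (combine σ η) ≤ Fall α (Hall α (cq σ)) (Hall α (cq η))) :=
  One.all_sides h₀ σ η hσ hη h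

end Pool.Agent.Results.MP_560646_mp.OneSidedAll
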