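import Pool.Agent.Mg.F560646.G80cfac

namespace Pool.Agent.Results.MP_560646_mp.VnFactor

open Pool.Agent.MP_560646_mp
open scoped ComplexOrder

theorem result {n m : Type} [Fintype n] [DecidableEq n] [Fintype m] [DecidableEq m]
    (σ : ZMod 2 → Matrix n n ℂ) (η : ZMod 2 → Matrix m m ℂ)
    (hσ : ∀ x, (σ x).PosSemidef ∧ Matrix.trace (σ x) = 1)
    (hη : ∀ x, (η x).PosSemidef ∧ Matrix.trace (η x) = 1) :
    min (Real.log 2) (Hvn (cq σ) + Hvn (cq η)) - Hvn (combine σ η) ≤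
      min (Real.log 4) (1 + 8 / Real.log (min (max (Hvn (cq σ)) (Hvn (cq η)))
        (Real.log 2 - min (Hvn (cq σ)) (Hvn (cq η))))⁻¹) *
      (min (Real.log 2) (Hvn (cq σ) + Hvn (cq η)) - bound1 (Hvn (cq σ)) (Hvn (cq η))) :=
  vn_factor σ η hσ hη

end Pool.Agent.Results.MP_560646_mp.VnFactor
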